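import Pool.Agent.H8.BIG.Targets

/-!
# Board `big_modules`, row KKI: iterates and conjugation
-/

set_option autoImplicit false

open MvPolynomial
open Pool.Agent.H12.ZD (pmap v O Res DenseOrbit NoInv)
open Pool.Agent.H18.HIT Pool.Agent.H8.BIG

namespace Pool.Agent.H45.BIG

theorem kki : T_KKI := by
  intro N k _ T m i hT
  induction i with
  | zero =>
    intro S hS
    refine ⟨S, hS, ?_, ?_⟩
    · rw [pow_zero, one_mul]
    · rw [it_zero, aeval_X_left_apply]
  | succ i ih =>
    intro S hS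
    obtain ⟨Q, hQ, hd, hdvd⟩ := hT S hS
    obtain ⟨Q', hQ', hd', hdvd'⟩ := ih Q hQ
    refine ⟨Q', hQ', ?_, ?_⟩
    · calc Q'.totalDegree ≤ m ^ i * Q.totalDegree := hd'
        _ ≤ m ^ i * (m * S.totalDegree) := Nat.mul_le_mul_left _ hd
        _ = m ^ (i + 1) * S.totalDegree := by ring
    · rw [aeval_it_succ']
      exact hdvd.trans (map_dvd (aeval T) hdvd')

theorem kkc : T_KKC := by
  intro N k _ T G L L' m hL hL' h1 h2 h3 hT S hS
  have e1 : ∀ S : Po N k, aeval L (aeval L' S) = S := by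
    intro S
    rw [← aeval_comp, h1, aeval_X_left_apply]
  have e2 : ∀ S : Po N k, aeval L' (aeval L S) = S := by
    intro S
    rw [← aeval_comp, h2, aeval_X_left_apply]
  have hS1 : aeval L' S ≠ 0 := by
    intro h
    apply hS
    rw [← e1 S, h, map_zero]
  obtain ⟨Q, hQ, hd, hdvd⟩ := hT _ hS1
  have d1 : (aeval L' S).totalDegree ≤ S.totalDegree := by
    have := totalDegree_aeval_le L' 1 hL' S
    rwa [mul_one] at this
  have d2 : (aeval L Q).totalDegree ≤ Q.totalDegree := by
    have := totalDegree_aeval_le L 1 hL Q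
    rwa [mul_one] at this
  refine ⟨aeval L Q, ?_, ?_, ?_⟩
  · intro h
    apply hQ
    rw [← e2 Q, h, map_zero]
  · exact d2.trans (hd.trans (Nat.mul_le_mul_left _ d1))
  · have h4 := map_dvd (aeval L) hdvd
    rw [e1, ← aeval_comp, h3, aeval_comp] at h4
    exact h4

theorem pf_KKI : T_KKI ∧ T_KKC := ⟨kki, kkc⟩

end Pool.Agent.H45.BIG
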